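import Mathlib
import Pool.Agent.TH277.MR.Q
set_option autoImplicit false

/-! Translates of ergodic measures by the real group are equal or mutually singular.

`G_∞ = ∏_v SL(n_v, ℝ)` acts continuously on a Polish space `X`, and a group `A` (discrete or not)
acts on `X` by Borel automorphisms such that `a · (g · x) = (π(a) g π(a)⁻¹) · (a · x)` for `g` in
`G_∞`, where `π` is a homomorphism of `A` to the group `T⁺` of the elements of `G_∞` with diagonal
components and positive entries, with dense image in `T⁺`. If `μ`, `ν` are `A`-invariant ergodic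
probability measures and `g` is any element of `G_∞`, then `μ = g · ν` or `μ` and `g · ν` are
mutually singular. -/

namespace Pool.Agent.Results.MP_67388f_an.AllTranslates

open MeasureTheory Set Filter
open Pool.Agent.TH277.MR

theorem result {I : Type*} [Fintype I] [DecidableEq I] (n : I → ℕ)
    {X : Type*} [TopologicalSpace X] [PolishSpace X] [MeasurableSpace X] [BorelSpace X]
    [MulAction (PG n) X] [ContinuousSMul (PG n) X]
    {A : Type*} [Group A] [MulAction A X] [MeasurableConstSMul A X] (π : A →* PG n)
    (hpos : ∀ (a : A) (v : I), IsPosDiag (π a v))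
    (hact : ∀ (a : A) (g : PG n) (x : X), a • g • x = (π a * g * (π a)⁻¹) • a • x)
    (hdense : ∀ t : PG n, (∀ v, IsPosDiag (t v)) → t ∈ closure (Set.range π))
    (μ ν : Measure X) [IsProbabilityMeasure μ] [IsProbabilityMeasure ν]
    [ErgodicSMul A X μ] [ErgodicSMul A X ν] (g : PG n) :
    μ = ν.map (fun x => g • x) ∨ μ ⟂ₘ ν.map fun x => g • x := by
  have hinv : ∀ ρ : Measure X, ErgodicSMul A X ρ → ∀ a : A, ρ.map (fun x => a • x) = ρ := by
    intro ρ hρ a
    exact (measurePreserving_smul a ρ).map_eq
  have herg : ∀ ρ : Measure X, ErgodicSMul A X ρ → Erg (maps A X) ρ := by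
    intro ρ hρ E hE hf
    have h1 := hρ.aeconst_of_forall_preimage_smul_ae_eq hE (fun a => hf _ ⟨a, rfl⟩)
    rcases eventuallyConst_set.1 h1 with h2 | h2
    · right
      exact h2
    · left
      rw [measure_eq_zero_iff_ae_notMem]
      exact h2
  exact translates_main (π := π) ⟨hpos, hact, hdense⟩ (hinv μ inferInstance)
    (hinv ν inferInstance) (herg μ inferInstance) (herg ν inferInstance) g

end Pool.Agent.Results.MP_67388f_an.AllTranslates
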