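import Mathlib
import Pool.Agent.TH277.MR.P3
set_option autoImplicit false

/-! Translates of invariant measures by elements whose conjugates accumulate on a normalised
abelian group.

`G` acts continuously on a Polish space `X`, and `A` is any group acting by Borel automorphisms on
`X` which normalises this action: `a · (g x) = α(a)(g) · (a x)`. `V` is a second countable locally
compact abelian group with Haar measure `m`, `u : V → G` a continuous homomorphism and
`α(a)(u(s)) = u(φ(a) s)` with automorphisms `φ(a)` of the topological group `V`. The closure of
every orbit `φ(A) t` contains `0` (for example, some `φ(a)` is a contraction). If `μ` and `ν` are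
`A`-invariant probability measures, then there is a Borel set `P` such that the restriction of `μ`
to `P` is `A`-invariant, `u(V)`-invariant and absolutely continuous with respect to `ν`, and the
restriction of `μ` to the complement of `P` is singular to `g ν` for every `g` in `G` such that
the set of all `s` in `V` with `u(s)` in the closure of `{α(a)(g) : a ∈ A}` has positive measure.

If `μ` is ergodic, `P` is a null set or has full measure: either `μ` is `u(V)`-invariant (and
`μ = ν` if `ν` is ergodic, too), or `μ` is singular to all these translates of `ν`. -/

namespace Pool.Agent.Results.MP_67388f_an.GroupTranslates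

open MeasureTheory Set

theorem result {V : Type*} [AddCommGroup V] [TopologicalSpace V] [IsTopologicalAddGroup V]
    [SecondCountableTopology V] [LocallyCompactSpace V] [MeasurableSpace V] [BorelSpace V]
    (m : Measure V) [m.IsAddHaarMeasure]
    {X : Type*} [TopologicalSpace X] [PolishSpace X] [MeasurableSpace X] [BorelSpace X]
    {G : Type*} [Group G] [TopologicalSpace G] [FirstCountableTopology G] [MulAction G X]
    [ContinuousSMul G X]
    {A : Type*} [Group A] [MulAction A X] [MeasurableConstSMul A X]
    (α : A → G → G) (hα : ∀ (a : A) (g : G) (x : X), a • g • x = α a g • a • x)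
    (u : V → G) (hu : Continuous u) (h0 : u 0 = 1) (hadd : ∀ s t, u (s + t) = u s * u t)
    (φ : A → V ≃ₜ+ V) (hφ : ∀ (a : A) (s : V), α a (u s) = u (φ a s))
    (hcon : ∀ t : V, (0 : V) ∈ closure (range fun a : A => φ a t))
    (μ ν : Measure X) [IsProbabilityMeasure μ] [IsProbabilityMeasure ν]
    [SMulInvariantMeasure A X μ] [SMulInvariantMeasure A X ν] :
    ∃ P : Set X, MeasurableSet P ∧
      (∀ a : A, (μ.restrict P).map (fun x => a • x) = μ.restrict P) ∧ μ.restrict P ≪ ν ∧
      (∀ t : V, (μ.restrict P).map (fun x => u t • x) = μ.restrict P) ∧
      ∀ g : G, 0 < m {s : V | u s ∈ closure (range fun a : A => α a g)} →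
        μ.restrict Pᶜ ⟂ₘ ν.map fun x => g • x :=
  Pool.Agent.TH277.MR.PB.decomp m α hα hu h0 hadd φ hφ hcon μ ν

end Pool.Agent.Results.MP_67388f_an.GroupTranslates
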