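import Mathlib
import Pool.Agent.TH277.MR.R
set_option autoImplicit false

/-! Ergodic measures of the diagonal group are of pure type along every one-parameter group.

`G_∞ = ∏_v SL(n_v, ℝ)` acts continuously on a Polish space `X`, and a group `A` (discrete or not)
acts on `X` by Borel automorphisms such that `a · (g · x) = (π(a) g π(a)⁻¹) · (a · x)` for `g` in
`G_∞`, where `π` is a homomorphism of `A` to the group `T⁺` of the elements of `G_∞` with diagonal
components and positive entries, with dense image in `T⁺`. Let `b : ℝ → G_∞` be any continuous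
one-parameter group (not assumed normalised by `A`) and `ρ` any sigma-finite measure on `X` which
is quasi-invariant under `b`. Then every `A`-invariant ergodic probability measure is invariant
under `b` or singular to `ρ`. -/

namespace Pool.Agent.Results.MP_67388f_an.PureType

open MeasureTheory Set Filter
open Pool.Agent.TH277.MR

theorem result {I : Type*} [Fintype I] [DecidableEq I] (n : I → ℕ)
    {X : Type*} [TopologicalSpace X] [PolishSpace X] [MeasurableSpace X] [BorelSpace X]
    [MulAction (PG n) X] [ContinuousSMul (PG n) X]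
    {A : Type*} [Group A] [MulAction A X] [MeasurableConstSMul A X] (π : A →* PG n)
    (hpos : ∀ (a : A) (v : I), IsPosDiag (π a v))
    (hact : ∀ (a : A) (g : PG n) (x : X), a • g • x = (π a * g * (π a)⁻¹) • a • x)
    (hdense : ∀ t : PG n, (∀ v, IsPosDiag (t v)) → t ∈ closure (Set.range π))
    (μ : Measure X) [IsProbabilityMeasure μ] [ErgodicSMul A X μ]
    (b : ℝ → PG n) (hb : Continuous b) (hadd : ∀ s t, b (s + t) = b s * b t)
    (ρ : Measure X) [SigmaFinite ρ] (hρ : ∀ t, ρ.map (fun x => b t • x) ≪ ρ) :
    (∀ t, μ.map (fun x => b t • x) = μ) ∨ μ ⟂ₘ ρ := by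
  have hinv : ∀ ρ : Measure X, ErgodicSMul A X ρ → ∀ a : A, ρ.map (fun x => a • x) = ρ := by
    intro ρ hρ a
    exact (measurePreserving_smul a ρ).map_eq
  have herg : ∀ ρ : Measure X, ErgodicSMul A X ρ → Erg (maps A X) ρ := by
    intro ρ hρ E hE hf
    have h1 := hρ.aeconst_of_forall_preimage_smul_ae_eq hE (fun a => hf _ ⟨a, rfl⟩)
    rcases eventuallyConst_set.1 h1 with h2 | h2
    · right
      exact h2
    · left
      rw [measure_eq_zero_iff_ae_notMem]
      exact h2
  exact pure_main (π := π) ⟨hpos, hact, hdense⟩ (hinv μ inferInstance) (herg μ inferInstance)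
    hb hadd hρ

end Pool.Agent.Results.MP_67388f_an.PureType
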