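import Mathlib
import Pool.Agent.TH277.MR.P6
set_option autoImplicit false

/-! One Borel set for all translates of an invariant measure along a root group.

`A` is any group acting by Borel automorphisms on a Polish space `X`, and `u` is a continuous flow
on `X` (the action of a real one-parameter subgroup `U`) which `A` normalises:
`a · u(s) x = u(χ(a) s) (a · x)` with a character `χ : A → ℝ^×` whose positive values are dense in
`(0, ∞)`. Let `μ` be an `A`-ergodic and `ν` an `A`-invariant probability measure. Then either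
`μ` is `U`-invariant and absolutely continuous with respect to `ν`, or there is one Borel set `B`
of full `μ`-measure which is a null set for all translates `u(s) ν`, `s ≠ 0`. -/

namespace Pool.Agent.Results.MP_67388f_an.UniformTranslates

open MeasureTheory Set

theorem result {X : Type*} [TopologicalSpace X] [PolishSpace X] [MeasurableSpace X] [BorelSpace X]
    {A : Type*} [Group A] [MulAction A X] [MeasurableConstSMul A X]
    (u : ℝ → X → X) (hu : Continuous fun p : ℝ × X => u p.1 p.2) (h0 : ∀ x, u 0 x = x)
    (hadd : ∀ s t x, u (s + t) x = u s (u t x))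
    (χ : A →* ℝˣ) (hχ : ∀ (a : A) (s : ℝ) (x : X), a • u s x = u ((χ a : ℝ) * s) (a • x))
    (hd : ∀ r : ℝ, 0 < r → ∀ ε : ℝ, 0 < ε → ∃ a : A, |(χ a : ℝ) - r| < ε)
    (μ ν : Measure X) [IsProbabilityMeasure μ] [IsProbabilityMeasure ν]
    [ErgodicSMul A X μ] [SMulInvariantMeasure A X ν] :
    (μ ≪ ν ∧ ∀ t, μ.map (u t) = μ) ∨
      ∃ B : Set X, MeasurableSet B ∧ μ Bᶜ = 0 ∧ ∀ s, s ≠ 0 → ν.map (u s) B = 0 :=
  Pool.Agent.TH277.MR.PB.uniform_erg u hu h0 hadd χ hχ hd μ ν

end Pool.Agent.Results.MP_67388f_an.UniformTranslates
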